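import Pool.Agent.Q271.LSS.Tri

/-!
# The ideals of the (diagonal and) anti-diagonal entries of the commutator of two generic matrices
-/

set_option autoImplicit false

open MvPolynomial Pool.Agent.Q271.LSS

namespace Pool.Agent.Results.MP_bf1dc4_ag.BothIdeals

/-- The variables: `Sum.inl (i, j)` is `x_{ij}` and `Sum.inr (i, j)` is `y_{ij}`. -/
abbrev Vars (n : ℕ) : Type := (Fin n × Fin n) ⊕ (Fin n × Fin n)

variable (K : Type*) [Field K] (n : ℕ)

/-- The generic matrix `X`. -/
noncomputable def matX : Matrix (Fin n) (Fin n) (MvPolynomial (Vars n) K) :=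
  Matrix.of fun i j => X (Sum.inl (i, j))

/-- The generic matrix `Y`. -/
noncomputable def matY : Matrix (Fin n) (Fin n) (MvPolynomial (Vars n) K) :=
  Matrix.of fun i j => X (Sum.inr (i, j))

/-- The commutator matrix `XY - YX`. -/
noncomputable def comm : Matrix (Fin n) (Fin n) (MvPolynomial (Vars n) K) :=
  matX K n * matY K n - matY K n * matX K n

/-- The ideal generated by the anti-diagonal entries of the commutator matrix. -/
noncomputable def antiIdeal : Ideal (MvPolynomial (Vars n) K) :=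
  Ideal.span (Set.range fun i : Fin n => comm K n i (Fin.rev i))

/-- The ideal generated by the diagonal and the anti-diagonal entries of the commutator matrix. -/
noncomputable def bothIdeal : Ideal (MvPolynomial (Vars n) K) :=
  Ideal.span ((Set.range fun i : Fin n => comm K n i i) ∪
    Set.range fun i : Fin n => comm K n i (Fin.rev i))

variable {K n}

lemma comm_apply (i j : Fin n) : comm K n i j =
    ∑ k : Fin n, X (Sum.inl (i, k)) * X (Sum.inr (k, j)) -
      ∑ k : Fin n, X (Sum.inr (i, k)) * X (Sum.inl (k, j)) := by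
  unfold comm matX matY
  rw [Matrix.sub_apply, Matrix.mul_apply, Matrix.mul_apply]
  rfl

lemma comm_isHomogeneous (i j : Fin n) : (comm K n i j).IsHomogeneous 2 := by
  rw [comm_apply]
  refine IsHomogeneous.sub ?_ ?_
  all_goals
    refine IsHomogeneous.sum _ _ _ fun k _ => ?_
    exact (isHomogeneous_X K _).mul (isHomogeneous_X K _)

section three

/-- the variables which are set to zero, `n = 3` -/
def bad3 : Vars 3 → Bool
  | Sum.inl (2, 2) => true
  | Sum.inr (2, 0) => true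
  | Sum.inl (0, 2) => true
  | Sum.inr (2, 2) => true
  | Sum.inl (1, 2) => true
  | Sum.inr (2, 1) => true
  | _ => false

def P3 : Fin 3 → Finset (Vars 3)
  | 0 => {Sum.inl (0, 0), Sum.inr (0, 2)}
  | 1 => {Sum.inl (1, 0), Sum.inr (0, 1)}
  | 2 => {Sum.inl (2, 0), Sum.inr (0, 0)}

variable (K) in
noncomputable def h3 : Fin 3 → MvPolynomial (Vars 3) K
  | 0 => X (Sum.inl (0, 1)) * X (Sum.inr (1, 2))
  | 1 => - (X (Sum.inr (1, 0)) * X (Sum.inl (0, 1))) - X (Sum.inr (1, 2)) * X (Sum.inl (2, 1))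
  | 2 => X (Sum.inl (2, 1)) * X (Sum.inr (1, 0))

lemma hP3 : ∀ z : Vars 3, (∃ j, z ∈ P3 j) ↔ (z = Sum.inl (0, 0) ∨ z = Sum.inr (0, 2) ∨
    z = Sum.inl (1, 0) ∨ z = Sum.inr (0, 1) ∨ z = Sum.inl (2, 0) ∨ z = Sum.inr (0, 0)) := by
  decide

lemma prime_three : (antiIdeal K 3).IsPrime := by
  classical
  unfold antiIdeal
  refine prime_of_products (h := h3 K) (P := P3) _ (fun i => ⟨2, by norm_num, comm_isHomogeneous _ _⟩)
    (fun z => bad3 z = true) ?_ ?_ ?_ ?_ ?_
  · intro i
    rw [comm_apply]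
    simp only [Fin.sum_univ_three]
    simp only [map_sub, map_add, map_mul, kill_X]
    fin_cases i
    · simp [bad3, P3, h3, Fin.rev]
    · simp [bad3, P3, h3, Fin.rev]
      ring
    · simp [bad3, P3, h3, Fin.rev]
  · intro i
    fin_cases i <;> simp [P3]
  · intro i j
    fin_cases i <;> fin_cases j <;> simp [P3] <;> decide
  · intro i h0
    fin_cases i
    · have h1 := congrArg (eval (fun _ => (1 : K))) h0
      simp [h3] at h1
    · have h1 := congrArg (eval (fun z : Vars 3 => if z = Sum.inr (1, 0) ∨ z = Sum.inl (0, 1)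
        then (1 : K) else 0)) h0
      simp [h3] at h1
    · have h1 := congrArg (eval (fun _ => (1 : K))) h0
      simp [h3] at h1
  · intro i _
    fin_cases i <;> simp [h3, kill_X, hP3]

end three

section four

variable [NeZero n]

/-- the variables which are set to zero, `n ≥ 4` -/
def bad (n : ℕ) [NeZero n] (z : Vars n) : Prop :=
  Sum.elim (fun p : Fin n × Fin n => p.2 = p.1 - 1) (fun p : Fin n × Fin n => p.2 = Fin.rev p.1 - 1) z

def P (n : ℕ) [NeZero n] (a : Fin n) : Finset (Vars n) :=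
  {Sum.inl (a, a + 1), Sum.inr (a + 1, Fin.rev a)}

variable (K n) in
noncomputable def h (a : Fin n) : MvPolynomial (Vars n) K :=
  (∑ k : Fin n, if k = a + 1 ∨ k = a - 1 then 0 else
    X (Sum.inl (a, k)) * X (Sum.inr (k, Fin.rev a))) -
  ∑ k : Fin n, if k = Fin.rev a - 1 ∨ k = Fin.rev a + 1 then 0 else
    X (Sum.inr (a, k)) * X (Sum.inl (k, Fin.rev a))

lemma rev_eq_rev_sub (a k : Fin n) : Fin.rev a = Fin.rev k - 1 ↔ k = a - 1 := by
  rw [← Fin.rev_add, Fin.rev_inj]
  constructor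
  · rintro rfl; rw [add_sub_cancel_right]
  · rintro rfl; rw [sub_add_cancel]

lemma rev_eq_rev_add (a k : Fin n) : Fin.rev a = Fin.rev k + 1 ↔ k = a + 1 := by
  rw [← Fin.rev_sub, Fin.rev_inj]
  constructor
  · rintro rfl; rw [sub_add_cancel]
  · rintro rfl; rw [add_sub_cancel_right]

lemma chosen_inl (i j : Fin n) : (∃ a, (Sum.inl (i, j) : Vars n) ∈ P n a) ↔ j = i + 1 := by
  unfold P
  constructor
  · rintro ⟨a, ha⟩
    simp only [Finset.mem_insert, Finset.mem_singleton, Sum.inl.injEq, Prod.mk.injEq,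
      reduceCtorEq, or_false] at ha
    rw [ha.1, ha.2]
  · rintro rfl
    exact ⟨i, by simp⟩

lemma chosen_inr (i j : Fin n) : (∃ a, (Sum.inr (i, j) : Vars n) ∈ P n a) ↔ j = Fin.rev i + 1 := by
  unfold P
  constructor
  · rintro ⟨a, ha⟩
    simp only [Finset.mem_insert, Finset.mem_singleton, Sum.inr.injEq, Prod.mk.injEq,
      reduceCtorEq, false_or] at ha
    rw [ha.1, ha.2, Fin.rev_add, sub_add_cancel]
  · rintro rfl
    refine ⟨i - 1, ?_⟩
    simp [Fin.rev_sub]

lemma prime_four (hn : 4 ≤ n) : (antiIdeal K n).IsPrime := by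
  classical
  have hne : ∀ a : Fin n, a + 1 ≠ a - 1 := by
    intro a h0
    have h1 : (1 : Fin n) + 1 = 0 := by
      have h2 : a + 1 + 1 = a := by rw [h0, sub_add_cancel]
      rw [add_assoc] at h2
      exact add_eq_left.1 h2
    have h3 := congrArg Fin.val h1
    rw [Fin.val_add, Fin.val_one', Fin.val_zero] at h3
    rw [Nat.mod_eq_of_lt (by omega : 1 < n), Nat.mod_eq_of_lt (by omega)] at h3
    omega
  unfold antiIdeal
  refine prime_of_products (h := h K n) (P := P n) _
    (fun i => ⟨2, by norm_num, comm_isHomogeneous _ _⟩) (bad n) ?_ ?_ ?_ ?_ ?_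
  · intro a
    rw [comm_apply]
    simp only [map_sub, map_sum, map_mul, kill_X]
    have hbx : ∀ i j : Fin n, bad n (Sum.inl (i, j)) ↔ j = i - 1 := fun _ _ => Iff.rfl
    have hby : ∀ i j : Fin n, bad n (Sum.inr (i, j)) ↔ j = Fin.rev i - 1 := fun _ _ => Iff.rfl
    have h1 : ∀ k : Fin n, ((if bad n (Sum.inl (a, k)) then (0 : MvPolynomial (Vars n) K)
        else X (Sum.inl (a, k))) * if bad n (Sum.inr (k, Fin.rev a)) then 0 else
        X (Sum.inr (k, Fin.rev a))) =
        (if k = a + 1 then X (Sum.inl (a, k)) * X (Sum.inr (k, Fin.rev a)) else 0) +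
        if k = a + 1 ∨ k = a - 1 then 0 else X (Sum.inl (a, k)) * X (Sum.inr (k, Fin.rev a)) := by
      intro k
      simp only [hbx, hby, rev_eq_rev_sub]
      by_cases hk1 : k = a - 1
      · have hk2 : k ≠ a + 1 := by rw [hk1]; exact (hne a).symm
        simp [hk1, (hne a).symm]
      · by_cases hk2 : k = a + 1
        · simp [hk2, hne a]
        · simp [hk1, hk2]
    have h2 : ∀ k : Fin n, ((if bad n (Sum.inr (a, k)) then (0 : MvPolynomial (Vars n) K)
        else X (Sum.inr (a, k))) * if bad n (Sum.inl (k, Fin.rev a)) then 0 else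
        X (Sum.inl (k, Fin.rev a))) =
        if k = Fin.rev a - 1 ∨ k = Fin.rev a + 1 then 0 else
          X (Sum.inr (a, k)) * X (Sum.inl (k, Fin.rev a)) := by
      intro k
      have h3 : Fin.rev a = k - 1 ↔ k = Fin.rev a + 1 := by
        constructor
        · intro h; rw [h, sub_add_cancel]
        · intro h; rw [h, add_sub_cancel_right]
      simp only [hbx, hby, h3]
      by_cases hk1 : k = Fin.rev a - 1
      · simp [hk1]
      · by_cases hk2 : k = Fin.rev a + 1
        · simp [hk2]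
        · simp [hk1, hk2]
    rw [Finset.sum_congr rfl fun k _ => h1 k, Finset.sum_congr rfl fun k _ => h2 k,
      Finset.sum_add_distrib, Finset.sum_ite_eq', if_pos (Finset.mem_univ _)]
    unfold P h
    rw [Finset.prod_pair (by simp)]
    ring
  · intro a
    exact ⟨_, Finset.mem_insert_self _ _⟩
  · intro a b hab
    unfold P
    rw [Finset.disjoint_left]
    intro z hz hz'
    simp only [Finset.mem_insert, Finset.mem_singleton] at hz hz'
    rcases hz with rfl | rfl
    · simp only [Sum.inl.injEq, Prod.mk.injEq, reduceCtorEq, or_false] at hz'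
      exact hab hz'.1
    · simp only [Sum.inr.injEq, Prod.mk.injEq, reduceCtorEq, false_or] at hz'
      exact hab (Fin.rev_injective hz'.2)
  · intro a h0
    obtain ⟨k₀, hk₀⟩ : ∃ k : Fin n, k ∉ ({a, a + 1, a - 1} : Finset (Fin n)) := by
      by_contra hcon
      push Not at hcon
      have h1 : (Finset.univ : Finset (Fin n)) ⊆ {a, a + 1, a - 1} := fun k _ => hcon k
      have h2 := Finset.card_le_card h1
      rw [Finset.card_univ, Fintype.card_fin] at h2
      have h3 := Finset.card_le_three (a := a) (b := a + 1) (c := a - 1)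
      omega
    simp only [Finset.mem_insert, Finset.mem_singleton, not_or] at hk₀
    obtain ⟨hk1, hk2, hk3⟩ := hk₀
    set p : Vars n → K := fun z => if z = Sum.inl (a, k₀) ∨ z = Sum.inr (k₀, Fin.rev a) then 1 else 0
      with hp
    have h1 := congrArg (eval p) h0
    unfold h at h1
    rw [map_zero, map_sub, map_sum, map_sum, Finset.sum_eq_single k₀, Finset.sum_eq_zero] at h1
    · rw [if_neg (by tauto), map_mul, eval_X, eval_X, hp] at h1
      simp at h1
    · intro k _
      split_ifs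
      · exact map_zero _
      · rw [map_mul, eval_X, hp]
        have : ¬ (Sum.inr (a, k) : Vars n) = Sum.inr (k₀, Fin.rev a) := by
          intro h
          simp only [Sum.inr.injEq, Prod.mk.injEq] at h
          exact hk1 h.1.symm
        simp [this]
    · intro k _ hk
      split_ifs
      · exact map_zero _
      · rw [map_mul, eval_X, hp]
        simp [hk]
    · intro h
      exact absurd (Finset.mem_univ _) h
  · intro a _
    unfold h
    rw [map_sub, map_sum, map_sum]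
    congr 1
    · refine Finset.sum_congr rfl fun k _ => ?_
      split_ifs with hk
      · exact map_zero _
      · rw [map_mul, kill_X, kill_X, if_neg, if_neg]
        · rw [chosen_inr, rev_eq_rev_add]
          tauto
        · rw [chosen_inl]
          tauto
    · refine Finset.sum_congr rfl fun k _ => ?_
      split_ifs with hk
      · exact map_zero _
      · rw [map_mul, kill_X, kill_X, if_neg, if_neg]
        · rw [chosen_inl]
          intro h
          exact hk (Or.inl (by rw [h, add_sub_cancel_right]))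
        · rw [chosen_inr]
          tauto

end four

section em

/-- the embedding of the inner indices -/
def em {n : ℕ} (i : Fin n) : Fin (n + 2) := i.castSucc.succ

lemma em_inj {i j : Fin n} : em i = em j ↔ i = j := by
  unfold em
  rw [Fin.succ_inj, Fin.castSucc_inj]

lemma em_injective : Function.Injective (em : Fin n → Fin (n + 2)) := fun _ _ h => em_inj.1 h

lemma em_ne_zero (i : Fin n) : em i ≠ 0 := Fin.succ_ne_zero _

lemma em_ne_last (i : Fin n) : em i ≠ Fin.last (n + 1) := by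
  intro h
  have := congrArg Fin.val h
  simp [em] at this
  omega

lemma zero_ne_last : (0 : Fin (n + 2)) ≠ Fin.last (n + 1) := by
  intro h
  have := congrArg Fin.val h
  simp at this

lemma rev_em (i : Fin n) : Fin.rev (em i) = em (Fin.rev i) := by
  unfold em
  rw [Fin.rev_succ, Fin.rev_castSucc, Fin.succ_castSucc]

lemma rev_zero' : Fin.rev (0 : Fin (n + 2)) = Fin.last (n + 1) := Fin.rev_zero _

lemma rev_last' : Fin.rev (Fin.last (n + 1)) = (0 : Fin (n + 2)) := Fin.rev_last _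

lemma sum_em {M : Type*} [AddCommMonoid M] (f : Fin (n + 2) → M) :
    ∑ k, f k = f 0 + ((∑ k : Fin n, f (em k)) + f (Fin.last (n + 1))) := by
  rw [Fin.sum_univ_succ, Fin.sum_univ_castSucc]
  rfl

lemma em_cases (i : Fin (n + 2)) : i = 0 ∨ (∃ j : Fin n, i = em j) ∨ i = Fin.last (n + 1) := by
  refine Fin.cases (Or.inl rfl) (fun i => ?_) i
  refine Fin.lastCases (Or.inr (Or.inr rfl)) (fun j => Or.inr (Or.inl ⟨j, rfl⟩)) i

end em

section ind

variable (K n) in
/-- the standard generators -/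
noncomputable def gen : Fin n ⊕ Fin n → MvPolynomial (Vars n) K :=
  Sum.elim (fun i => comm K n i i) (fun i => comm K n i (Fin.rev i))

lemma gen_isHomogeneous (s : Fin n ⊕ Fin n) : (gen K n s).IsHomogeneous 2 := by
  rcases s with i | i
  · exact comm_isHomogeneous _ _
  · exact comm_isHomogeneous _ _

/-- the index set of the generators, without the diagonal entry at `r` -/
def S (r : Fin n) : Set (Fin n ⊕ Fin n) :=
  {s | Sum.elim (fun i => i ≠ r) (fun i => Fin.rev i ≠ i) s}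

variable (K) in
/-- the statement which is proved by induction -/
def Q (r : Fin n) : Prop :=
  ∀ W ⊆ S r, (Ideal.span (gen K n '' W)).IsPrime ∧
    ∀ s ∈ S r, s ∉ W → gen K n s ∉ Ideal.span (gen K n '' W)

def alX (r : Fin n) (i j : Fin (n + 2)) : Prop :=
  (i ≠ 0 ∧ i ≠ Fin.last (n + 1) ∧ j ≠ 0 ∧ j ≠ Fin.last (n + 1)) ∨ (i = 0 ∧ j = 0) ∨
    (i = 0 ∧ j = em r) ∨ (i = 0 ∧ j = Fin.last (n + 1)) ∨ (i = em r ∧ j = 0) ∨
    (i = Fin.last (n + 1) ∧ j = em r)

def alY (r : Fin n) (i j : Fin (n + 2)) : Prop :=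
  (i ≠ 0 ∧ i ≠ Fin.last (n + 1) ∧ j ≠ 0 ∧ j ≠ Fin.last (n + 1)) ∨ (i = 0 ∧ j = 0) ∨
    (i = 0 ∧ j = Fin.last (n + 1)) ∨ (i = em r ∧ j = 0) ∨ (i = em r ∧ j = Fin.last (n + 1)) ∨
    (i = Fin.last (n + 1) ∧ j = 0) ∨ (i = Fin.last (n + 1) ∧ j = em r)

def bd (r : Fin n) (z : Vars (n + 2)) : Prop :=
  ¬ Sum.elim (fun p : Fin (n + 2) × Fin (n + 2) => alX r p.1 p.2)
    (fun p : Fin (n + 2) × Fin (n + 2) => alY r p.1 p.2) z

/-- the embedding of the inner variables -/
def E {n : ℕ} : Vars n → Vars (n + 2) := Sum.map (Prod.map em em) (Prod.map em em)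

lemma E_injective : Function.Injective (E : Vars n → Vars (n + 2)) :=
  Sum.map_injective.2 ⟨em_injective.prodMap em_injective, em_injective.prodMap em_injective⟩

open Classical in
variable (K) in
noncomputable def kl (r : Fin n) : MvPolynomial (Vars (n + 2)) K →+* MvPolynomial (Vars (n + 2)) K :=
  kill K (bd r)

variable (r : Fin n)

section table


lemma kx_ee (i j : Fin n) : kl K r (X (Sum.inl (em i, em j))) = X (Sum.inl (em i, em j)) := by
  unfold kl
  rw [kill_X, if_neg]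
  simp [bd, alX, em_ne_zero, em_ne_last]

lemma ky_ee (i j : Fin n) : kl K r (X (Sum.inr (em i, em j))) = X (Sum.inr (em i, em j)) := by
  unfold kl
  rw [kill_X, if_neg]
  simp [bd, alY, em_ne_zero, em_ne_last]

lemma kx_00 : kl K r (X (Sum.inl (0, 0))) = X (Sum.inl (0, 0)) := by
  unfold kl
  rw [kill_X, if_neg]
  simp [bd, alX]

lemma ky_00 : kl K r (X (Sum.inr (0, 0))) = X (Sum.inr (0, 0)) := by
  unfold kl
  rw [kill_X, if_neg]
  simp [bd, alY]

lemma kx_0e (j : Fin n) : kl K r (X (Sum.inl (0, em j))) =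
    if j = r then X (Sum.inl (0, em j)) else 0 := by
  unfold kl
  rw [kill_X]
  simp only [bd, alX, Sum.elim_inl]
  by_cases h : j = r
  · simp [h]
  · simp [h, em_inj, em_ne_zero, em_ne_last, (em_ne_zero _).symm]

lemma ky_0e (j : Fin n) : kl K r (X (Sum.inr (0, em j))) = 0 := by
  unfold kl
  rw [kill_X, if_pos]
  simp [bd, alY, em_ne_zero, em_ne_last, (em_ne_zero _).symm, zero_ne_last]

lemma kx_0L : kl K r (X (Sum.inl (0, (Fin.last (n + 1))))) = X (Sum.inl (0, (Fin.last (n + 1)))) := by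
  unfold kl
  rw [kill_X, if_neg]
  simp [bd, alX]

lemma ky_0L : kl K r (X (Sum.inr (0, (Fin.last (n + 1))))) = X (Sum.inr (0, (Fin.last (n + 1)))) := by
  unfold kl
  rw [kill_X, if_neg]
  simp [bd, alY]

lemma kx_e0 (i : Fin n) : kl K r (X (Sum.inl (em i, 0))) =
    if i = r then X (Sum.inl (em i, 0)) else 0 := by
  unfold kl
  rw [kill_X]
  simp only [bd, alX, Sum.elim_inl]
  by_cases h : i = r
  · simp [h]
  · simp [h, em_inj, em_ne_zero, em_ne_last]

lemma ky_e0 (i : Fin n) : kl K r (X (Sum.inr (em i, 0))) =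
    if i = r then X (Sum.inr (em i, 0)) else 0 := by
  unfold kl
  rw [kill_X]
  simp only [bd, alY, Sum.elim_inr]
  by_cases h : i = r
  · simp [h]
  · simp [h, em_inj, em_ne_zero, em_ne_last, zero_ne_last]

lemma kx_eL (i : Fin n) : kl K r (X (Sum.inl (em i, (Fin.last (n + 1))))) = 0 := by
  unfold kl
  rw [kill_X, if_pos]
  simp [bd, alX, em_ne_zero, em_ne_last, (em_ne_last _).symm, zero_ne_last.symm]

lemma ky_eL (i : Fin n) : kl K r (X (Sum.inr (em i, (Fin.last (n + 1))))) =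
    if i = r then X (Sum.inr (em i, (Fin.last (n + 1)))) else 0 := by
  unfold kl
  rw [kill_X]
  simp only [bd, alY, Sum.elim_inr]
  by_cases h : i = r
  · simp [h]
  · simp [h, em_inj, em_ne_zero, em_ne_last, zero_ne_last]

lemma kx_L0 : kl K r (X (Sum.inl ((Fin.last (n + 1)), 0))) = 0 := by
  unfold kl
  rw [kill_X, if_pos]
  simp [bd, alX, (em_ne_last _).symm, (em_ne_zero _).symm, zero_ne_last.symm]

lemma ky_L0 : kl K r (X (Sum.inr ((Fin.last (n + 1)), 0))) = X (Sum.inr ((Fin.last (n + 1)), 0)) := by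
  unfold kl
  rw [kill_X, if_neg]
  simp [bd, alY]

lemma kx_Le (j : Fin n) : kl K r (X (Sum.inl ((Fin.last (n + 1)), em j))) =
    if j = r then X (Sum.inl ((Fin.last (n + 1)), em j)) else 0 := by
  unfold kl
  rw [kill_X]
  simp only [bd, alX, Sum.elim_inl]
  by_cases h : j = r
  · simp [h]
  · simp [h, em_inj, em_ne_zero, em_ne_last, zero_ne_last.symm]

lemma ky_Le (j : Fin n) : kl K r (X (Sum.inr ((Fin.last (n + 1)), em j))) =
    if j = r then X (Sum.inr ((Fin.last (n + 1)), em j)) else 0 := by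
  unfold kl
  rw [kill_X]
  simp only [bd, alY, Sum.elim_inr]
  by_cases h : j = r
  · simp [h]
  · simp [h, em_inj, em_ne_zero, em_ne_last, zero_ne_last.symm]

lemma kx_LL : kl K r (X (Sum.inl ((Fin.last (n + 1)), (Fin.last (n + 1))))) = 0 := by
  unfold kl
  rw [kill_X, if_pos]
  simp [bd, alX, (em_ne_last _).symm, zero_ne_last.symm]

lemma ky_LL : kl K r (X (Sum.inr ((Fin.last (n + 1)), (Fin.last (n + 1))))) = 0 := by
  unfold kl
  rw [kill_X, if_pos]
  simp [bd, alY, (em_ne_last _).symm, zero_ne_last.symm]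

lemma kl_comm (i j : Fin (n + 2)) : kl K r (comm K (n + 2) i j) =
    (kl K r (X (Sum.inl (i, 0))) * kl K r (X (Sum.inr (0, j))) +
      ((∑ k : Fin n, kl K r (X (Sum.inl (i, em k))) * kl K r (X (Sum.inr (em k, j)))) +
      kl K r (X (Sum.inl (i, (Fin.last (n + 1))))) * kl K r (X (Sum.inr ((Fin.last (n + 1)), j))))) -
    (kl K r (X (Sum.inr (i, 0))) * kl K r (X (Sum.inl (0, j))) +
      ((∑ k : Fin n, kl K r (X (Sum.inr (i, em k))) * kl K r (X (Sum.inl (em k, j)))) +
      kl K r (X (Sum.inr (i, (Fin.last (n + 1))))) * kl K r (X (Sum.inl ((Fin.last (n + 1)), j))))) := by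
  rw [comm_apply, map_sub, map_sum, map_sum, sum_em, sum_em]
  simp only [map_mul]

lemma kl_D0 : kl K r (comm K (n + 2) 0 0) = X (Sum.inl (0, em r)) * X (Sum.inr (em r, 0)) +
    X (Sum.inl (0, (Fin.last (n + 1)))) * X (Sum.inr ((Fin.last (n + 1)), 0)) := by
  rw [kl_comm]
  simp only [kx_00, ky_00, kx_0e, ky_0e, kx_0L, ky_0L, kx_e0, ky_e0, kx_L0, ky_L0]
  simp
  ring

lemma kl_DL : kl K r (comm K (n + 2) (Fin.last (n + 1)) (Fin.last (n + 1))) = X (Sum.inl ((Fin.last (n + 1)), em r)) * X (Sum.inr (em r, (Fin.last (n + 1)))) -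
    X (Sum.inr ((Fin.last (n + 1)), 0)) * X (Sum.inl (0, (Fin.last (n + 1)))) := by
  rw [kl_comm]
  simp only [kx_0L, ky_0L, kx_eL, ky_eL, kx_L0, ky_L0, kx_Le, ky_Le, kx_LL, ky_LL]
  simp

lemma kl_J0 : kl K r (comm K (n + 2) 0 (Fin.last (n + 1))) = X (Sum.inl (0, 0)) * X (Sum.inr (0, (Fin.last (n + 1)))) +
    (X (Sum.inl (0, em r)) * X (Sum.inr (em r, (Fin.last (n + 1)))) - X (Sum.inr (0, 0)) * X (Sum.inl (0, (Fin.last (n + 1))))) := by
  rw [kl_comm]
  simp only [kx_00, ky_00, kx_0L, ky_0L, kx_0e, ky_0e, kx_eL, ky_eL, kx_LL, ky_LL]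
  simp
  ring

lemma kl_JL : kl K r (comm K (n + 2) (Fin.last (n + 1)) 0) =
    - (X (Sum.inl (em r, 0)) * X (Sum.inr ((Fin.last (n + 1)), em r)) +
      (X (Sum.inr ((Fin.last (n + 1)), 0)) * X (Sum.inl (0, 0)) - X (Sum.inl ((Fin.last (n + 1)), em r)) * X (Sum.inr (em r, 0)))) := by
  rw [kl_comm]
  simp only [kx_00, ky_00, kx_L0, ky_L0, kx_e0, ky_e0, kx_Le, ky_Le, kx_LL, ky_LL]
  simp
  ring

end table

lemma kl_inner (i j : Fin n) (hij : ¬ (i = r ∧ j = r)) :
    kl K r (comm K (n + 2) (em i) (em j)) = rename E (comm K n i j) := by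
  rw [kl_comm, comm_apply]
  simp only [kx_ee, ky_ee, kx_e0, ky_e0, kx_0e, ky_0e, kx_eL, ky_eL, kx_Le, ky_Le, map_sub, map_sum,
    map_mul, rename_X]
  have h1 : (if i = r then (X (Sum.inr (em i, 0)) : MvPolynomial (Vars (n + 2)) K) else 0) *
      (if j = r then X (Sum.inl (0, em j)) else 0) = 0 := by
    by_cases hi : i = r
    · have hj : j ≠ r := fun hj => hij ⟨hi, hj⟩
      simp [hj]
    · simp [hi]
  have h2 : (if i = r then (X (Sum.inr (em i, Fin.last (n + 1))) : MvPolynomial (Vars (n + 2)) K)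
      else 0) * (if j = r then X (Sum.inl (Fin.last (n + 1), em j)) else 0) = 0 := by
    by_cases hi : i = r
    · have hj : j ≠ r := fun hj => hij ⟨hi, hj⟩
      simp [hj]
    · simp [hi]
  rw [h1, h2, mul_zero, zero_mul, zero_add, zero_add, add_zero, add_zero]
  rfl

lemma kl_gen {t : Fin n ⊕ Fin n} (ht : t ∈ S r) :
    kl K r (gen K (n + 2) (Sum.map em em t)) = rename E (gen K n t) := by
  rcases t with i | i
  · have h : i ≠ r := ht
    exact kl_inner r i i (fun h' => h h'.1)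
  · have h : Fin.rev i ≠ i := ht
    show kl K r (comm K (n + 2) (em i) (Fin.rev (em i))) = _
    rw [rev_em]
    exact kl_inner r i (Fin.rev i) (fun h' => h (h'.2.trans h'.1.symm))

lemma kill_rename {P : Vars (n + 2) → Prop} [DecidablePred P] (hP : ∀ w : Vars n, ¬ P (E w))
    (q : MvPolynomial (Vars n) K) : kill K P (rename E q) = rename E q := by
  have h : (kill K P).comp (rename E : MvPolynomial (Vars n) K →ₐ[K] _).toRingHom =
      (rename E : MvPolynomial (Vars n) K →ₐ[K] _).toRingHom := by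
    apply MvPolynomial.ringHom_ext
    · intro a
      show kill K P (rename E (C a)) = rename E (C a)
      rw [rename_C, kill_C]
    · intro w
      show kill K P (rename E (X w)) = rename E (X w)
      rw [rename_X, kill_X, if_neg (hP w)]
  exact congrArg (fun f => f q) h

lemma eval_rename_gen {p : Vars (n + 2) → K} (hp : ∀ w : Vars n, p (E w) = 0) (t : Fin n ⊕ Fin n) :
    eval p (rename E (gen K n t)) = 0 := by
  have h : ∀ i j : Fin n, eval p (rename E (comm K n i j)) = 0 := by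
    intro i j
    rw [comm_apply]
    simp only [map_sub, map_sum, map_mul, rename_X, eval_X, hp, mul_zero, Finset.sum_const_zero,
      sub_zero]
  rcases t with i | i
  · exact h _ _
  · exact h _ _

lemma stage {σ : Type*} {G : Set (MvPolynomial σ K)} {q : MvPolynomial σ K} {b : Prop}
    (hG : (Ideal.span G).IsPrime) (h : (Ideal.span (insert q G)).IsPrime) :
    (Ideal.span (G ∪ {x | x = q ∧ b})).IsPrime := by
  by_cases hb : b
  · have : G ∪ {x | x = q ∧ b} = insert q G := by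
      ext x
      simp [hb, or_comm]
    rwa [this]
  · have : G ∪ {x | x = q ∧ b} = G := by
      ext x
      simp [hb]
    rwa [this]

lemma insert_neg {σ : Type*} {G : Set (MvPolynomial σ K)} {q : MvPolynomial σ K}
    (h : (Ideal.span (insert q G)).IsPrime) : (Ideal.span (insert (-q) G)).IsPrime := by
  have : Ideal.span (insert (-q) G) = Ideal.span (insert q G) := by
    rw [Ideal.span_insert, Ideal.span_insert, Ideal.span_singleton_neg]
  rwa [this]

lemma notMem_of_eval {σ : Type*} {G : Set (MvPolynomial σ K)} {q : MvPolynomial σ K} (p : σ → K)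
    (hG : ∀ g ∈ G, eval p g = 0) (hq : eval p q ≠ 0) : q ∉ Ideal.span G := by
  intro h
  have h1 : Ideal.span G ≤ RingHom.ker (eval p) := by
    rw [Ideal.span_le]
    intro g hg
    exact hG g hg
  exact hq (h1 h)

open Classical in
/-- the point with the values `a`, `b` at two places and zero elsewhere -/
noncomputable def pt (K : Type*) [Field K] {σ : Type*} (u v : σ) : σ → K :=
  fun z => if z = u ∨ z = v then 1 else 0

lemma pt_E {u v : Vars (n + 2)} (hu : ∀ w : Vars n, E w ≠ u) (hv : ∀ w : Vars n, E w ≠ v)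
    (w : Vars n) : pt K u v (E w) = 0 := by
  unfold pt
  rw [if_neg]
  rintro (h | h)
  · exact hu w h
  · exact hv w h


lemma Ew_inl0 (j : Fin (n + 2)) (w : Vars n) : E w ≠ Sum.inl (0, j) := by
  rcases w with ⟨a, b⟩ | ⟨a, b⟩ <;> simp [E, em_ne_zero]
lemma Ew_inlL (j : Fin (n + 2)) (w : Vars n) : E w ≠ Sum.inl ((Fin.last (n + 1)), j) := by
  rcases w with ⟨a, b⟩ | ⟨a, b⟩ <;> simp [E, em_ne_last]
lemma Ew_inl0' (j : Fin (n + 2)) (w : Vars n) : E w ≠ Sum.inl (j, 0) := by
  rcases w with ⟨a, b⟩ | ⟨a, b⟩ <;> simp [E, em_ne_zero]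
lemma Ew_inlL' (j : Fin (n + 2)) (w : Vars n) : E w ≠ Sum.inl (j, (Fin.last (n + 1))) := by
  rcases w with ⟨a, b⟩ | ⟨a, b⟩ <;> simp [E, em_ne_last]
lemma Ew_inr0 (j : Fin (n + 2)) (w : Vars n) : E w ≠ Sum.inr (0, j) := by
  rcases w with ⟨a, b⟩ | ⟨a, b⟩ <;> simp [E, em_ne_zero]
lemma Ew_inrL (j : Fin (n + 2)) (w : Vars n) : E w ≠ Sum.inr ((Fin.last (n + 1)), j) := by
  rcases w with ⟨a, b⟩ | ⟨a, b⟩ <;> simp [E, em_ne_last]
lemma Ew_inr0' (j : Fin (n + 2)) (w : Vars n) : E w ≠ Sum.inr (j, 0) := by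
  rcases w with ⟨a, b⟩ | ⟨a, b⟩ <;> simp [E, em_ne_zero]
lemma Ew_inrL' (j : Fin (n + 2)) (w : Vars n) : E w ≠ Sum.inr (j, (Fin.last (n + 1))) := by
  rcases w with ⟨a, b⟩ | ⟨a, b⟩ <;> simp [E, em_ne_last]

variable (K) in
/-- the four killed outer generators -/
noncomputable def q1 : MvPolynomial (Vars (n + 2)) K :=
  X (Sum.inl (0, em r)) * X (Sum.inr (em r, 0)) + X (Sum.inl (0, (Fin.last (n + 1)))) * X (Sum.inr ((Fin.last (n + 1)), 0))
variable (K) in
noncomputable def q2 : MvPolynomial (Vars (n + 2)) K :=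
  X (Sum.inl ((Fin.last (n + 1)), em r)) * X (Sum.inr (em r, (Fin.last (n + 1)))) - X (Sum.inr ((Fin.last (n + 1)), 0)) * X (Sum.inl (0, (Fin.last (n + 1))))
variable (K) in
noncomputable def q3 : MvPolynomial (Vars (n + 2)) K :=
  X (Sum.inl (0, 0)) * X (Sum.inr (0, (Fin.last (n + 1)))) +
    (X (Sum.inl (0, em r)) * X (Sum.inr (em r, (Fin.last (n + 1)))) - X (Sum.inr (0, 0)) * X (Sum.inl (0, (Fin.last (n + 1)))))
variable (K) in
noncomputable def q4 : MvPolynomial (Vars (n + 2)) K :=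
  X (Sum.inl (em r, 0)) * X (Sum.inr ((Fin.last (n + 1)), em r)) +
      (X (Sum.inr ((Fin.last (n + 1)), 0)) * X (Sum.inl (0, 0)) - X (Sum.inl ((Fin.last (n + 1)), em r)) * X (Sum.inr (em r, 0)))

open Classical in
lemma outer_prime {G : Set (MvPolynomial (Vars n) K)} (hG : (Ideal.span G).IsPrime)
    (hG0 : ∀ g ∈ G, ∃ t, g = gen K n t) (b1 b2 b3 b4 : Prop) :
    (Ideal.span ((((((rename E : MvPolynomial (Vars n) K →ₐ[K] _) '' G) ∪ {x | x = q1 K r ∧ b1}) ∪
      {x | x = q2 K r ∧ b2}) ∪ {x | x = q3 K r ∧ b3}) ∪ {x | x = - q4 K r ∧ b4})).IsPrime := by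
  have h0 := rename_prime E_injective hG
  have e0 := em_ne_zero r
  have e1 := em_ne_last r
  have e2 := zero_ne_last (n := n)
  have hfix : ∀ (P : Finset (Vars (n + 2))), (∀ w : Vars n, E w ∉ P) →
      ∀ g ∈ ((rename E : MvPolynomial (Vars n) K →ₐ[K] _) '' G),
      kill K (fun z => z ∈ P) g = g := by
    rintro P hP _ ⟨g, -, rfl⟩
    exact kill_rename hP g
  have hev : ∀ (p : Vars (n + 2) → K), (∀ w : Vars n, p (E w) = 0) →
      ∀ g ∈ ((rename E : MvPolynomial (Vars n) K →ₐ[K] _) '' G), eval p g = 0 := by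
    rintro p hp _ ⟨g, hg, rfl⟩
    obtain ⟨t, rfl⟩ := hG0 g hg
    exact eval_rename_gen hp t
  -- stage 1
  have h1 : (Ideal.span (((rename E : MvPolynomial (Vars n) K →ₐ[K] _) '' G) ∪
      {x | x = q1 K r ∧ b1})).IsPrime := by
    refine stage h0 ?_
    have h := tri_add (P := {Sum.inl (0, em r), Sum.inr (em r, 0)})
      (h := X (Sum.inl (0, (Fin.last (n + 1)))) * X (Sum.inr ((Fin.last (n + 1)), 0))) h0 ⟨_, Finset.mem_insert_self _ _⟩
      (hfix _ (by
        intro w hw
        simp only [Finset.mem_insert, Finset.mem_singleton] at hw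
        rcases hw with h | h
        · exact Ew_inl0 _ _ h
        · exact Ew_inr0' _ _ h))
      (by rw [map_mul, kill_X, kill_X, if_neg, if_neg] <;>
            simp [e0, e1, e2, e0.symm, e1.symm, e2.symm])
      (notMem_of_eval (pt K (Sum.inl (0, (Fin.last (n + 1)))) (Sum.inr ((Fin.last (n + 1)), 0)))
        (hev _ (pt_E (Ew_inl0 _) (Ew_inrL _))) (by simp [pt]))
    rw [Finset.prod_pair (by simp)] at h
    exact h
  -- stage 2
  have h2 : (Ideal.span ((((rename E : MvPolynomial (Vars n) K →ₐ[K] _) '' G) ∪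
      {x | x = q1 K r ∧ b1}) ∪ {x | x = q2 K r ∧ b2})).IsPrime := by
    refine stage h1 ?_
    set p : Vars (n + 2) → K := fun z => if z = Sum.inl (0, em r) ∨ z = Sum.inl (0, (Fin.last (n + 1))) ∨
      z = Sum.inr ((Fin.last (n + 1)), 0) then 1 else if z = Sum.inr (em r, 0) then -1 else 0 with hp
    have hpE : ∀ w : Vars n, p (E w) = 0 := by
      intro w
      rw [hp]
      simp only
      rw [if_neg, if_neg (Ew_inr0' _ _)]
      rintro (h | h | h)
      · exact Ew_inl0 _ _ h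
      · exact Ew_inl0 _ _ h
      · exact Ew_inrL _ _ h
    have h := tri_add (P := {Sum.inl ((Fin.last (n + 1)), em r), Sum.inr (em r, (Fin.last (n + 1)))})
      (h := - (X (Sum.inr ((Fin.last (n + 1)), 0)) * X (Sum.inl (0, (Fin.last (n + 1)))))) h1 ⟨_, Finset.mem_insert_self _ _⟩
      (by
        rintro g (hg | ⟨rfl, -⟩)
        · refine hfix _ ?_ g hg
          intro w hw
          simp only [Finset.mem_insert, Finset.mem_singleton] at hw
          rcases hw with h | h
          · exact Ew_inlL _ _ h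
          · exact Ew_inrL' _ _ h
        · unfold q1
          rw [map_add, map_mul, map_mul, kill_X, kill_X, kill_X, kill_X, if_neg, if_neg, if_neg,
            if_neg] <;> simp [e0, e1, e2, e0.symm, e1.symm, e2.symm])
      (by rw [map_neg, map_mul, kill_X, kill_X, if_neg, if_neg] <;>
            simp [e0, e1, e2, e0.symm, e1.symm, e2.symm])
      (notMem_of_eval p (by
        rintro g (hg | ⟨rfl, -⟩)
        · exact hev p hpE g hg
        · simp [q1, hp, e0, e1, e2, e0.symm, e1.symm, e2.symm]) (by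
        simp [hp, e0, e1, e2, e0.symm, e1.symm, e2.symm]))
    rw [Finset.prod_pair (by simp), ← sub_eq_add_neg] at h
    exact h
  -- stage 3
  have h3 : (Ideal.span (((((rename E : MvPolynomial (Vars n) K →ₐ[K] _) '' G) ∪
      {x | x = q1 K r ∧ b1}) ∪ {x | x = q2 K r ∧ b2}) ∪ {x | x = q3 K r ∧ b3})).IsPrime := by
    refine stage h2 ?_
    have h := tri_add (P := {Sum.inl (0, 0), Sum.inr (0, (Fin.last (n + 1)))})
      (h := X (Sum.inl (0, em r)) * X (Sum.inr (em r, (Fin.last (n + 1)))) - X (Sum.inr (0, 0)) * X (Sum.inl (0, (Fin.last (n + 1)))))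
      h2 ⟨_, Finset.mem_insert_self _ _⟩
      (by
        rintro g ((hg | ⟨rfl, -⟩) | ⟨rfl, -⟩)
        · refine hfix _ ?_ g hg
          intro w hw
          simp only [Finset.mem_insert, Finset.mem_singleton] at hw
          rcases hw with h | h
          · exact Ew_inl0 _ _ h
          · exact Ew_inr0 _ _ h
        · unfold q1
          rw [map_add, map_mul, map_mul, kill_X, kill_X, kill_X, kill_X, if_neg, if_neg, if_neg,
            if_neg] <;> simp [e0, e1, e2, e0.symm, e1.symm, e2.symm]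
        · unfold q2
          rw [map_sub, map_mul, map_mul, kill_X, kill_X, kill_X, kill_X, if_neg, if_neg, if_neg,
            if_neg] <;> simp [e0, e1, e2, e0.symm, e1.symm, e2.symm])
      (by rw [map_sub, map_mul, map_mul, kill_X, kill_X, kill_X, kill_X, if_neg, if_neg, if_neg,
            if_neg] <;> simp [e0, e1, e2, e0.symm, e1.symm, e2.symm])
      (notMem_of_eval (pt K (Sum.inr (0, 0)) (Sum.inl (0, (Fin.last (n + 1))))) (by
        rintro g ((hg | ⟨rfl, -⟩) | ⟨rfl, -⟩)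
        · exact hev _ (pt_E (Ew_inr0 _) (Ew_inl0 _)) g hg
        · simp [q1, pt, e0, e1, e2, e0.symm, e1.symm, e2.symm]
        · simp [q2, pt, e0, e1, e2, e0.symm, e1.symm, e2.symm]) (by
        simp [pt, e0, e1, e2, e0.symm, e1.symm, e2.symm]))
    rw [Finset.prod_pair (by simp)] at h
    exact h
  -- stage 4
  refine stage h3 (insert_neg ?_)
  have h := tri_add (P := {Sum.inl (em r, 0), Sum.inr ((Fin.last (n + 1)), em r)})
    (h := X (Sum.inr ((Fin.last (n + 1)), 0)) * X (Sum.inl (0, 0)) - X (Sum.inl ((Fin.last (n + 1)), em r)) * X (Sum.inr (em r, 0)))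
    h3 ⟨_, Finset.mem_insert_self _ _⟩
    (by
      rintro g (((hg | ⟨rfl, -⟩) | ⟨rfl, -⟩) | ⟨rfl, -⟩)
      · refine hfix _ ?_ g hg
        intro w hw
        simp only [Finset.mem_insert, Finset.mem_singleton] at hw
        rcases hw with h | h
        · exact Ew_inl0' _ _ h
        · exact Ew_inrL _ _ h
      · unfold q1
        rw [map_add, map_mul, map_mul, kill_X, kill_X, kill_X, kill_X, if_neg, if_neg, if_neg,
          if_neg] <;> simp [e0, e1, e2, e0.symm, e1.symm, e2.symm]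
      · unfold q2
        rw [map_sub, map_mul, map_mul, kill_X, kill_X, kill_X, kill_X, if_neg, if_neg, if_neg,
          if_neg] <;> simp [e0, e1, e2, e0.symm, e1.symm, e2.symm]
      · unfold q3
        rw [map_add, map_sub, map_mul, map_mul, map_mul, kill_X, kill_X, kill_X, kill_X, kill_X,
          kill_X, if_neg, if_neg, if_neg, if_neg, if_neg, if_neg] <;>
          simp [e0, e1, e2, e0.symm, e1.symm, e2.symm])
    (by rw [map_sub, map_mul, map_mul, kill_X, kill_X, kill_X, kill_X, if_neg, if_neg, if_neg,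
          if_neg] <;> simp [e0, e1, e2, e0.symm, e1.symm, e2.symm])
    (notMem_of_eval (pt K (Sum.inr ((Fin.last (n + 1)), 0)) (Sum.inl (0, 0))) (by
      rintro g (((hg | ⟨rfl, -⟩) | ⟨rfl, -⟩) | ⟨rfl, -⟩)
      · exact hev _ (pt_E (Ew_inrL _) (Ew_inl0 _)) g hg
      · simp [q1, pt, e0, e1, e2, e0.symm, e1.symm, e2.symm]
      · simp [q2, pt, e0, e1, e2, e0.symm, e1.symm, e2.symm]
      · simp [q3, pt, e0, e1, e2, e0.symm, e1.symm, e2.symm]) (by
      simp [pt, e0, e1, e2, e0.symm, e1.symm, e2.symm]))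
  rw [Finset.prod_pair (by simp)] at h
  exact h

lemma inl_mem {j : Fin n} (h : (Sum.inl (em j) : Fin (n + 2) ⊕ Fin (n + 2)) ∈ S (em r)) :
    (Sum.inl j : Fin n ⊕ Fin n) ∈ S r := by
  have h' : em j ≠ em r := h
  show j ≠ r
  exact fun hj => h' (em_inj.2 hj)

lemma inr_mem {j : Fin n} (h : (Sum.inr (em j) : Fin (n + 2) ⊕ Fin (n + 2)) ∈ S (em r)) :
    (Sum.inr j : Fin n ⊕ Fin n) ∈ S r := by
  have h' : Fin.rev (em j) ≠ em j := h
  show Fin.rev j ≠ j
  rw [rev_em] at h'
  exact fun hj => h' (em_inj.2 hj)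

lemma kl_1 : kl K r (gen K (n + 2) (Sum.inl 0)) = q1 K r := kl_D0 r
lemma kl_2 : kl K r (gen K (n + 2) (Sum.inl (Fin.last (n + 1)))) = q2 K r := kl_DL r
lemma kl_3 : kl K r (gen K (n + 2) (Sum.inr 0)) = q3 K r := by
  show kl K r (comm K (n + 2) 0 (Fin.rev 0)) = _
  rw [rev_zero']
  exact kl_J0 r
lemma kl_4 : kl K r (gen K (n + 2) (Sum.inr (Fin.last (n + 1)))) = - q4 K r := by
  show kl K r (comm K (n + 2) (Fin.last (n + 1)) (Fin.rev (Fin.last (n + 1)))) = _
  rw [rev_last']
  exact kl_JL r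

lemma ev0 {W : Set (Fin (n + 2) ⊕ Fin (n + 2))} (hW : W ⊆ S (em r)) (p : Vars (n + 2) → K)
    (hp : ∀ w : Vars n, p (E w) = 0) (h1 : Sum.inl 0 ∈ W → eval p (q1 K r) = 0)
    (h2 : Sum.inl (Fin.last (n + 1)) ∈ W → eval p (q2 K r) = 0) (h3 : Sum.inr 0 ∈ W → eval p (q3 K r) = 0)
    (h4 : Sum.inr (Fin.last (n + 1)) ∈ W → eval p (q4 K r) = 0) :
    ∀ g ∈ (fun s => kl K r (gen K (n + 2) s)) '' W, eval p g = 0 := by
  rintro _ ⟨t, ht, rfl⟩
  simp only
  rcases t with i | i
  · rcases em_cases i with rfl | ⟨j, rfl⟩ | rfl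
    · rw [kl_1]; exact h1 ht
    · have h := kl_gen (K := K) r (inl_mem r (hW ht))
      rw [Sum.map_inl] at h
      rw [h]; exact eval_rename_gen hp _
    · rw [kl_2]; exact h2 ht
  · rcases em_cases i with rfl | ⟨j, rfl⟩ | rfl
    · rw [kl_3]; exact h3 ht
    · have h := kl_gen (K := K) r (inr_mem r (hW ht))
      rw [Sum.map_inr] at h
      rw [h]; exact eval_rename_gen hp _
    · rw [kl_4, map_neg, h4 ht, neg_zero]

open Classical in
variable (K n) in
/-- the retraction onto the inner variables -/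
noncomputable def ret : MvPolynomial (Vars (n + 2)) K →+* MvPolynomial (Vars n) K :=
  eval₂Hom C (fun z => if hz : ∃ w, E w = z then X hz.choose else 0)

lemma ret_E (w : Vars n) : ret K n (X (E w)) = X w := by
  have hz : ∃ w', E w' = E w := ⟨w, rfl⟩
  rw [ret, coe_eval₂Hom, eval₂_X, dif_pos hz, E_injective hz.choose_spec]

lemma ret_out {z : Vars (n + 2)} (hz : ∀ w : Vars n, E w ≠ z) : ret K n (X z) = 0 := by
  rw [ret, coe_eval₂Hom, eval₂_X, dif_neg]
  rintro ⟨w, hw⟩
  exact hz w hw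

lemma ret_rename (q : MvPolynomial (Vars n) K) : ret K n (rename E q) = q := by
  have h : (ret K n).comp (rename E : MvPolynomial (Vars n) K →ₐ[K] _).toRingHom =
      RingHom.id _ := by
    apply MvPolynomial.ringHom_ext
    · intro a
      show ret K n (rename E (C a)) = C a
      rw [rename_C, ret, coe_eval₂Hom, eval₂_C]
    · intro w
      show ret K n (rename E (X w)) = X w
      rw [rename_X, ret_E]
  exact congrArg (fun f => f q) h

lemma ret_1 : ret K n (q1 K r) = 0 := by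
  unfold q1
  rw [map_add, map_mul, map_mul, ret_out (Ew_inl0 _), ret_out (Ew_inl0 _), zero_mul, zero_mul,
    add_zero]
lemma ret_2 : ret K n (q2 K r) = 0 := by
  unfold q2
  rw [map_sub, map_mul, map_mul, ret_out (Ew_inlL _), ret_out (Ew_inrL _), zero_mul, zero_mul,
    sub_zero]
lemma ret_3 : ret K n (q3 K r) = 0 := by
  have h1 := fun j => ret_out (K := K) (n := n) (z := Sum.inl (0, j)) (Ew_inl0 j)
  have h2 := fun j => ret_out (K := K) (n := n) (z := Sum.inr (0, j)) (Ew_inr0 j)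
  unfold q3
  simp only [map_add, map_sub, map_mul, h1, h2, zero_mul, sub_zero, add_zero, mul_zero]
lemma ret_4 : ret K n (q4 K r) = 0 := by
  have h1 := fun j => ret_out (K := K) (n := n) (z := Sum.inl (j, 0)) (Ew_inl0' j)
  have h2 := fun j => ret_out (K := K) (n := n) (z := Sum.inr ((Fin.last (n + 1)), j)) (Ew_inrL j)
  have h3 := fun j => ret_out (K := K) (n := n) (z := Sum.inl ((Fin.last (n + 1)), j)) (Ew_inlL j)
  unfold q4
  simp only [map_add, map_sub, map_mul, h1, h2, h3, zero_mul, sub_zero, add_zero, mul_zero]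

theorem killed (hQ : Q K r) (W : Set (Fin (n + 2) ⊕ Fin (n + 2))) (hW : W ⊆ S (em r)) :
    (Ideal.span ((fun s => kl K r (gen K (n + 2) s)) '' W)).IsPrime ∧
    ∀ s ∈ S (em r), s ∉ W →
      kl K r (gen K (n + 2) s) ∉ Ideal.span ((fun s => kl K r (gen K (n + 2) s)) '' W) := by
  have e0 := em_ne_zero r
  have e1 := em_ne_last r
  have e2 := zero_ne_last (n := n)
  set Wi : Set (Fin n ⊕ Fin n) := {t | t ∈ S r ∧ Sum.map em em t ∈ W} with hWi
  have hWiS : Wi ⊆ S r := fun t ht => ht.1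
  constructor
  · have h := outer_prime r (hQ Wi hWiS).1 (by rintro _ ⟨t, -, rfl⟩; exact ⟨t, rfl⟩)
      (Sum.inl 0 ∈ W) (Sum.inl (Fin.last (n + 1)) ∈ W) (Sum.inr 0 ∈ W) (Sum.inr (Fin.last (n + 1)) ∈ W)
    convert h using 2
    ext x
    constructor
    · rintro ⟨t, ht, rfl⟩
      simp only
      rcases t with i | i
      · rcases em_cases i with rfl | ⟨j, rfl⟩ | rfl
        · exact Or.inl (Or.inl (Or.inl (Or.inr ⟨kl_1 r, ht⟩)))
        · refine Or.inl (Or.inl (Or.inl (Or.inl ⟨gen K n (Sum.inl j), ⟨Sum.inl j, ⟨inl_mem r (hW ht),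
            ht⟩, rfl⟩, ?_⟩)))
          exact (kl_gen (K := K) r (inl_mem r (hW ht))).symm
        · exact Or.inl (Or.inl (Or.inr ⟨kl_2 r, ht⟩))
      · rcases em_cases i with rfl | ⟨j, rfl⟩ | rfl
        · exact Or.inl (Or.inr ⟨kl_3 r, ht⟩)
        · refine Or.inl (Or.inl (Or.inl (Or.inl ⟨gen K n (Sum.inr j), ⟨Sum.inr j, ⟨inr_mem r (hW ht),
            ht⟩, rfl⟩, ?_⟩)))
          exact (kl_gen (K := K) r (inr_mem r (hW ht))).symm
        · exact Or.inr ⟨kl_4 r, ht⟩
    · rintro ((((⟨_, ⟨t, ht, rfl⟩, rfl⟩ | ⟨rfl, h⟩) | ⟨rfl, h⟩) | ⟨rfl, h⟩) | ⟨rfl, h⟩)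
      · exact ⟨_, ht.2, kl_gen r ht.1⟩
      · exact ⟨_, h, kl_1 r⟩
      · exact ⟨_, h, kl_2 r⟩
      · exact ⟨_, h, kl_3 r⟩
      · exact ⟨_, h, kl_4 r⟩
  · intro s hs hsW
    have inner : ∀ t ∈ S r, Sum.map em em t ∉ W → rename E (gen K n t) ∉
        Ideal.span ((fun s => kl K r (gen K (n + 2) s)) '' W) := by
      intro t ht htW hmem
      have h1 : Ideal.span ((fun s => kl K r (gen K (n + 2) s)) '' W) ≤
          (Ideal.span (gen K n '' Wi)).comap (ret K n) := by
        rw [Ideal.span_le]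
        rintro _ ⟨t', ht', rfl⟩
        rw [SetLike.mem_coe, Ideal.mem_comap]
        simp only
        rcases t' with i | i
        · rcases em_cases i with rfl | ⟨j, rfl⟩ | rfl
          · rw [kl_1, ret_1]; exact Ideal.zero_mem _
          · have h := kl_gen (K := K) r (inl_mem r (hW ht'))
            rw [Sum.map_inl] at h
            rw [h, ret_rename]
            exact Ideal.subset_span ⟨_, ⟨inl_mem r (hW ht'), ht'⟩, rfl⟩
          · rw [kl_2, ret_2]; exact Ideal.zero_mem _
        · rcases em_cases i with rfl | ⟨j, rfl⟩ | rfl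
          · rw [kl_3, ret_3]; exact Ideal.zero_mem _
          · have h := kl_gen (K := K) r (inr_mem r (hW ht'))
            rw [Sum.map_inr] at h
            rw [h, ret_rename]
            exact Ideal.subset_span ⟨_, ⟨inr_mem r (hW ht'), ht'⟩, rfl⟩
          · rw [kl_4, map_neg, ret_4, neg_zero]; exact Ideal.zero_mem _
      have h2 := h1 hmem
      rw [Ideal.mem_comap, ret_rename] at h2
      exact (hQ Wi hWiS).2 t ht (fun h => htW h.2) h2
    rcases s with i | i
    · rcases em_cases i with rfl | ⟨j, rfl⟩ | rfl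
      · rw [kl_1]
        refine notMem_of_eval (pt K (Sum.inl (0, em r)) (Sum.inr (em r, 0)))
          (ev0 r hW _ (pt_E (Ew_inl0 _) (Ew_inr0' _)) (fun h => absurd h hsW) (fun _ => ?_)
          (fun _ => ?_) (fun _ => ?_)) ?_ <;>
          simp [q1, q2, q3, q4, pt, e0, e1, e2, e0.symm, e1.symm, e2.symm]
      · have h := kl_gen (K := K) r (inl_mem r hs)
        rw [Sum.map_inl] at h
        rw [h]
        exact inner _ (inl_mem r hs) hsW
      · rw [kl_2]
        refine notMem_of_eval (pt K (Sum.inl ((Fin.last (n + 1)), em r)) (Sum.inr (em r, (Fin.last (n + 1)))))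
          (ev0 r hW _ (pt_E (Ew_inlL _) (Ew_inrL' _)) (fun _ => ?_) (fun h => absurd h hsW)
          (fun _ => ?_) (fun _ => ?_)) ?_ <;>
          simp [q1, q2, q3, q4, pt, e0, e1, e2, e0.symm, e1.symm, e2.symm]
    · rcases em_cases i with rfl | ⟨j, rfl⟩ | rfl
      · rw [kl_3]
        refine notMem_of_eval (pt K (Sum.inl (0, 0)) (Sum.inr (0, (Fin.last (n + 1)))))
          (ev0 r hW _ (pt_E (Ew_inl0 _) (Ew_inr0 _)) (fun _ => ?_) (fun _ => ?_)
          (fun h => absurd h hsW) (fun _ => ?_)) ?_ <;>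
          simp [q1, q2, q3, q4, pt, e0, e1, e2, e0.symm, e1.symm, e2.symm]
      · have h := kl_gen (K := K) r (inr_mem r hs)
        rw [Sum.map_inr] at h
        rw [h]
        exact inner _ (inr_mem r hs) hsW
      · rw [kl_4]
        refine notMem_of_eval (pt K (Sum.inl (em r, 0)) (Sum.inr ((Fin.last (n + 1)), em r)))
          (ev0 r hW _ (pt_E (Ew_inl0' _) (Ew_inrL _)) (fun _ => ?_) (fun _ => ?_) (fun _ => ?_)
          (fun h => absurd h hsW)) ?_ <;>
          simp [q1, q2, q3, q4, pt, e0, e1, e2, e0.symm, e1.symm, e2.symm]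

theorem step_Q (hQ : Q K r) : Q K (em r) := by
  classical
  intro W hW
  constructor
  · refine prime_of_kill (bd r) (gen K (n + 2)) (fun s => ⟨2, two_pos, gen_isHomogeneous s⟩) W
      (Set.toFinite W) ?_ ?_
    · intro W' hW'
      exact (killed r hQ W' (hW'.trans hW)).1
    · intro W' hW' i hi hiW'
      exact (killed r hQ W' (hW'.trans hW)).2 i (hW hi) hiW'
  · intro s hs hsW hmem
    have h1 : Ideal.span (gen K (n + 2) '' W) ≤
        (Ideal.span ((fun s => kl K r (gen K (n + 2) s)) '' W)).comap (kl K r) := by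
      rw [Ideal.span_le]
      rintro _ ⟨t, ht, rfl⟩
      exact Ideal.subset_span ⟨t, ht, rfl⟩
    exact (killed r hQ W hW).2 s hs hsW (h1 hmem)

end ind

section four'

/-- the variables which are set to zero, `n = 4`, `r = 1` -/
def bd4 : Finset (Vars 4) :=
  {Sum.inl (0, 3), Sum.inl (1, 0), Sum.inl (2, 3), Sum.inr (0, 1), Sum.inr (3, 0), Sum.inr (3, 2),
    Sum.inl (1, 1), Sum.inl (2, 2), Sum.inr (1, 1), Sum.inr (2, 2), Sum.inl (3, 3), Sum.inr (3, 3)}

variable (K) in
noncomputable def kl4 : MvPolynomial (Vars 4) K →+* MvPolynomial (Vars 4) K :=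
  kill K (fun z => z ∈ bd4)

variable (K) in
noncomputable def w1 : MvPolynomial (Vars 4) K :=
  X (Sum.inr (2, 0)) * X (Sum.inl (0, 1)) + X (Sum.inr (2, 3)) * X (Sum.inl (3, 1))

variable (K) in
noncomputable def w2 : MvPolynomial (Vars 4) K :=
  X (Sum.inl (3, 2)) * X (Sum.inr (1, 3)) + X (Sum.inr (1, 0)) * X (Sum.inl (0, 2))

variable (K) in
noncomputable def w3 : MvPolynomial (Vars 4) K :=
  X (Sum.inl (3, 0)) * X (Sum.inr (0, 0)) + (X (Sum.inl (3, 1)) * X (Sum.inr (1, 0)) + X (Sum.inl (3, 2)) * X (Sum.inr (2, 0)))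

variable (K) in
noncomputable def w4 : MvPolynomial (Vars 4) K :=
  X (Sum.inl (0, 0)) * X (Sum.inr (0, 3)) + (X (Sum.inl (0, 1)) * X (Sum.inr (1, 3)) + X (Sum.inl (0, 2)) * X (Sum.inr (2, 3)))

variable (K) in
noncomputable def w5 : MvPolynomial (Vars 4) K :=
  X (Sum.inl (1, 3)) * X (Sum.inr (3, 1)) + (- (X (Sum.inl (3, 0)) * X (Sum.inr (0, 3))) - X (Sum.inl (3, 1)) * X (Sum.inr (1, 3)) - X (Sum.inl (3, 2)) * X (Sum.inr (2, 3)))

variable (K) in
noncomputable def w6 : MvPolynomial (Vars 4) K :=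
  X (Sum.inl (2, 0)) * X (Sum.inr (0, 2)) + (X (Sum.inr (0, 3)) * X (Sum.inl (3, 0)) - X (Sum.inl (0, 1)) * X (Sum.inr (1, 0)) - X (Sum.inl (0, 2)) * X (Sum.inr (2, 0)))

variable (K) in
noncomputable def w7 : MvPolynomial (Vars 4) K :=
  X (Sum.inl (2, 1)) * X (Sum.inr (1, 2)) + (X (Sum.inl (2, 0)) * X (Sum.inr (0, 2)) - X (Sum.inr (2, 0)) * X (Sum.inl (0, 2)) - X (Sum.inr (2, 1)) * X (Sum.inl (1, 2)) - X (Sum.inr (2, 3)) * X (Sum.inl (3, 2)))

lemma kl4_w1 : kl4 K (gen K 4 (Sum.inr 2)) = - w1 K := by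
  have h : gen K 4 (Sum.inr 2) = comm K 4 2 1 := rfl
  rw [h, comm_apply]
  unfold kl4 w1
  simp only [Fin.sum_univ_four, map_sub, map_add, map_mul, kill_X]
  simp [bd4]
  try ring

lemma kl4_w2 : kl4 K (gen K 4 (Sum.inr 1)) = - w2 K := by
  have h : gen K 4 (Sum.inr 1) = comm K 4 1 2 := rfl
  rw [h, comm_apply]
  unfold kl4 w2
  simp only [Fin.sum_univ_four, map_sub, map_add, map_mul, kill_X]
  simp [bd4]
  try ring

lemma kl4_w3 : kl4 K (gen K 4 (Sum.inr 3)) = w3 K := by
  have h : gen K 4 (Sum.inr 3) = comm K 4 3 0 := rfl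
  rw [h, comm_apply]
  unfold kl4 w3
  simp only [Fin.sum_univ_four, map_sub, map_add, map_mul, kill_X]
  simp [bd4]
  try ring

lemma kl4_w4 : kl4 K (gen K 4 (Sum.inr 0)) = w4 K := by
  have h : gen K 4 (Sum.inr 0) = comm K 4 0 3 := rfl
  rw [h, comm_apply]
  unfold kl4 w4
  simp only [Fin.sum_univ_four, map_sub, map_add, map_mul, kill_X]
  simp [bd4]
  try ring

lemma kl4_w5 : kl4 K (gen K 4 (Sum.inl 3)) = - w5 K := by
  have h : gen K 4 (Sum.inl 3) = comm K 4 3 3 := rfl
  rw [h, comm_apply]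
  unfold kl4 w5
  simp only [Fin.sum_univ_four, map_sub, map_add, map_mul, kill_X]
  simp [bd4]
  try ring

lemma kl4_w6 : kl4 K (gen K 4 (Sum.inl 0)) = - w6 K := by
  have h : gen K 4 (Sum.inl 0) = comm K 4 0 0 := rfl
  rw [h, comm_apply]
  unfold kl4 w6
  simp only [Fin.sum_univ_four, map_sub, map_add, map_mul, kill_X]
  simp [bd4]
  try ring

lemma kl4_w7 : kl4 K (gen K 4 (Sum.inl 2)) = w7 K := by
  have h : gen K 4 (Sum.inl 2) = comm K 4 2 2 := rfl
  rw [h, comm_apply]
  unfold kl4 w7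
  simp only [Fin.sum_univ_four, map_sub, map_add, map_mul, kill_X]
  simp [bd4]
  try ring

lemma chain4 (b1 b2 b3 b4 b5 b6 b7 : Prop) :
    (Ideal.span ((((((((∅ : Set (MvPolynomial (Vars 4) K)) ∪ {x | x = - w1 K ∧ b1}) ∪
      {x | x = - w2 K ∧ b2}) ∪ {x | x = w3 K ∧ b3}) ∪ {x | x = w4 K ∧ b4}) ∪
      {x | x = - w5 K ∧ b5}) ∪ {x | x = - w6 K ∧ b6}) ∪ {x | x = w7 K ∧ b7})).IsPrime := by
  have h0 : (Ideal.span (∅ : Set (MvPolynomial (Vars 4) K))).IsPrime := by
    rw [Ideal.span_empty]; exact Ideal.isPrime_bot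

  have h1 : (Ideal.span ((∅ : Set (MvPolynomial (Vars 4) K)) ∪ {x | x = - w1 K ∧ b1})).IsPrime := by
    refine stage h0 ?_
    have h := tri_add (P := {Sum.inr (2, 0), Sum.inl (0, 1)})
      (h := X (Sum.inr (2, 3)) * X (Sum.inl (3, 1))) h0 ⟨_, Finset.mem_insert_self _ _⟩
      (by
        rintro g hg
        · exact absurd hg (Set.notMem_empty _))
      (by simp [kill_X])
      (notMem_of_eval (pt K (Sum.inr (2, 3)) (Sum.inl (3, 1))) (by
        rintro g hg
        · exact absurd hg (Set.notMem_empty _)) (by simp [pt]))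
    rw [Finset.prod_pair (by simp)] at h
    exact insert_neg h
  have h2 : (Ideal.span (((∅ : Set (MvPolynomial (Vars 4) K)) ∪ {x | x = - w1 K ∧ b1}) ∪ {x | x = - w2 K ∧ b2})).IsPrime := by
    refine stage h1 ?_
    have h := tri_add (P := {Sum.inl (3, 2), Sum.inr (1, 3)})
      (h := X (Sum.inr (1, 0)) * X (Sum.inl (0, 2))) h1 ⟨_, Finset.mem_insert_self _ _⟩
      (by
        rintro g (hg | ⟨rfl, -⟩)
        · exact absurd hg (Set.notMem_empty _)
        · simp [w1, kill_X])
      (by simp [kill_X])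
      (notMem_of_eval (pt K (Sum.inr (1, 0)) (Sum.inl (0, 2))) (by
        rintro g (hg | ⟨rfl, -⟩)
        · exact absurd hg (Set.notMem_empty _)
        · simp [w1, pt]) (by simp [pt]))
    rw [Finset.prod_pair (by simp)] at h
    exact insert_neg h
  have h3 : (Ideal.span ((((∅ : Set (MvPolynomial (Vars 4) K)) ∪ {x | x = - w1 K ∧ b1}) ∪ {x | x = - w2 K ∧ b2}) ∪ {x | x = w3 K ∧ b3})).IsPrime := by
    refine stage h2 ?_
    have h := tri_add (P := {Sum.inl (3, 0), Sum.inr (0, 0)})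
      (h := (X (Sum.inl (3, 1)) * X (Sum.inr (1, 0)) + X (Sum.inl (3, 2)) * X (Sum.inr (2, 0)))) h2 ⟨_, Finset.mem_insert_self _ _⟩
      (by
        rintro g ((hg | ⟨rfl, -⟩) | ⟨rfl, -⟩)
        · exact absurd hg (Set.notMem_empty _)
        · simp [w1, kill_X]
        · simp [w2, kill_X])
      (by simp [kill_X])
      (notMem_of_eval (pt K (Sum.inl (3, 1)) (Sum.inr (1, 0))) (by
        rintro g ((hg | ⟨rfl, -⟩) | ⟨rfl, -⟩)
        · exact absurd hg (Set.notMem_empty _)
        · simp [w1, pt]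
        · simp [w2, pt]) (by simp [pt]))
    rw [Finset.prod_pair (by simp)] at h
    exact h
  have h4 : (Ideal.span (((((∅ : Set (MvPolynomial (Vars 4) K)) ∪ {x | x = - w1 K ∧ b1}) ∪ {x | x = - w2 K ∧ b2}) ∪ {x | x = w3 K ∧ b3}) ∪ {x | x = w4 K ∧ b4})).IsPrime := by
    refine stage h3 ?_
    have h := tri_add (P := {Sum.inl (0, 0), Sum.inr (0, 3)})
      (h := (X (Sum.inl (0, 1)) * X (Sum.inr (1, 3)) + X (Sum.inl (0, 2)) * X (Sum.inr (2, 3)))) h3 ⟨_, Finset.mem_insert_self _ _⟩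
      (by
        rintro g (((hg | ⟨rfl, -⟩) | ⟨rfl, -⟩) | ⟨rfl, -⟩)
        · exact absurd hg (Set.notMem_empty _)
        · simp [w1, kill_X]
        · simp [w2, kill_X]
        · simp [w3, kill_X])
      (by simp [kill_X])
      (notMem_of_eval (pt K (Sum.inl (0, 2)) (Sum.inr (2, 3))) (by
        rintro g (((hg | ⟨rfl, -⟩) | ⟨rfl, -⟩) | ⟨rfl, -⟩)
        · exact absurd hg (Set.notMem_empty _)
        · simp [w1, pt]
        · simp [w2, pt]
        · simp [w3, pt]) (by simp [pt]))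
    rw [Finset.prod_pair (by simp)] at h
    exact h
  have h5 : (Ideal.span ((((((∅ : Set (MvPolynomial (Vars 4) K)) ∪ {x | x = - w1 K ∧ b1}) ∪ {x | x = - w2 K ∧ b2}) ∪ {x | x = w3 K ∧ b3}) ∪ {x | x = w4 K ∧ b4}) ∪ {x | x = - w5 K ∧ b5})).IsPrime := by
    refine stage h4 ?_
    have h := tri_add (P := {Sum.inl (1, 3), Sum.inr (3, 1)})
      (h := (- (X (Sum.inl (3, 0)) * X (Sum.inr (0, 3))) - X (Sum.inl (3, 1)) * X (Sum.inr (1, 3)) - X (Sum.inl (3, 2)) * X (Sum.inr (2, 3)))) h4 ⟨_, Finset.mem_insert_self _ _⟩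
      (by
        rintro g ((((hg | ⟨rfl, -⟩) | ⟨rfl, -⟩) | ⟨rfl, -⟩) | ⟨rfl, -⟩)
        · exact absurd hg (Set.notMem_empty _)
        · simp [w1, kill_X]
        · simp [w2, kill_X]
        · simp [w3, kill_X]
        · simp [w4, kill_X])
      (by simp [kill_X])
      (notMem_of_eval (pt K (Sum.inl (3, 0)) (Sum.inr (0, 3))) (by
        rintro g ((((hg | ⟨rfl, -⟩) | ⟨rfl, -⟩) | ⟨rfl, -⟩) | ⟨rfl, -⟩)
        · exact absurd hg (Set.notMem_empty _)
        · simp [w1, pt]
        · simp [w2, pt]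
        · simp [w3, pt]
        · simp [w4, pt]) (by simp [pt]))
    rw [Finset.prod_pair (by simp)] at h
    exact insert_neg h
  have h6 : (Ideal.span (((((((∅ : Set (MvPolynomial (Vars 4) K)) ∪ {x | x = - w1 K ∧ b1}) ∪ {x | x = - w2 K ∧ b2}) ∪ {x | x = w3 K ∧ b3}) ∪ {x | x = w4 K ∧ b4}) ∪ {x | x = - w5 K ∧ b5}) ∪ {x | x = - w6 K ∧ b6})).IsPrime := by
    refine stage h5 ?_
    have h := tri_add (P := {Sum.inl (2, 0), Sum.inr (0, 2)})
      (h := (X (Sum.inr (0, 3)) * X (Sum.inl (3, 0)) - X (Sum.inl (0, 1)) * X (Sum.inr (1, 0)) - X (Sum.inl (0, 2)) * X (Sum.inr (2, 0)))) h5 ⟨_, Finset.mem_insert_self _ _⟩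
      (by
        rintro g (((((hg | ⟨rfl, -⟩) | ⟨rfl, -⟩) | ⟨rfl, -⟩) | ⟨rfl, -⟩) | ⟨rfl, -⟩)
        · exact absurd hg (Set.notMem_empty _)
        · simp [w1, kill_X]
        · simp [w2, kill_X]
        · simp [w3, kill_X]
        · simp [w4, kill_X]
        · simp [w5, kill_X])
      (by simp [kill_X])
      (notMem_of_eval (pt K (Sum.inl (0, 1)) (Sum.inr (1, 0))) (by
        rintro g (((((hg | ⟨rfl, -⟩) | ⟨rfl, -⟩) | ⟨rfl, -⟩) | ⟨rfl, -⟩) | ⟨rfl, -⟩)
        · exact absurd hg (Set.notMem_empty _)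
        · simp [w1, pt]
        · simp [w2, pt]
        · simp [w3, pt]
        · simp [w4, pt]
        · simp [w5, pt]) (by simp [pt]))
    rw [Finset.prod_pair (by simp)] at h
    exact insert_neg h
  have h7 : (Ideal.span ((((((((∅ : Set (MvPolynomial (Vars 4) K)) ∪ {x | x = - w1 K ∧ b1}) ∪ {x | x = - w2 K ∧ b2}) ∪ {x | x = w3 K ∧ b3}) ∪ {x | x = w4 K ∧ b4}) ∪ {x | x = - w5 K ∧ b5}) ∪ {x | x = - w6 K ∧ b6}) ∪ {x | x = w7 K ∧ b7})).IsPrime := by
    refine stage h6 ?_
    have h := tri_add (P := {Sum.inl (2, 1), Sum.inr (1, 2)})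
      (h := (X (Sum.inl (2, 0)) * X (Sum.inr (0, 2)) - X (Sum.inr (2, 0)) * X (Sum.inl (0, 2)) - X (Sum.inr (2, 1)) * X (Sum.inl (1, 2)) - X (Sum.inr (2, 3)) * X (Sum.inl (3, 2)))) h6 ⟨_, Finset.mem_insert_self _ _⟩
      (by
        rintro g ((((((hg | ⟨rfl, -⟩) | ⟨rfl, -⟩) | ⟨rfl, -⟩) | ⟨rfl, -⟩) | ⟨rfl, -⟩) | ⟨rfl, -⟩)
        · exact absurd hg (Set.notMem_empty _)
        · simp [w1, kill_X]
        · simp [w2, kill_X]
        · simp [w3, kill_X]
        · simp [w4, kill_X]
        · simp [w5, kill_X]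
        · simp [w6, kill_X])
      (by simp [kill_X])
      (notMem_of_eval (pt K (Sum.inl (1, 2)) (Sum.inr (2, 1))) (by
        rintro g ((((((hg | ⟨rfl, -⟩) | ⟨rfl, -⟩) | ⟨rfl, -⟩) | ⟨rfl, -⟩) | ⟨rfl, -⟩) | ⟨rfl, -⟩)
        · exact absurd hg (Set.notMem_empty _)
        · simp [w1, pt]
        · simp [w2, pt]
        · simp [w3, pt]
        · simp [w4, pt]
        · simp [w5, pt]
        · simp [w6, pt]) (by simp [pt]))
    rw [Finset.prod_pair (by simp)] at h
    exact h
  exact h7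

lemma cases4 (W : Set (Fin 4 ⊕ Fin 4)) (hW : W ⊆ S (1 : Fin 4)) (C : Fin 4 ⊕ Fin 4 → Prop)
    (h1 : Sum.inr 2 ∈ W → C (Sum.inr 2)) (h2 : Sum.inr 1 ∈ W → C (Sum.inr 1))
    (h3 : Sum.inr 3 ∈ W → C (Sum.inr 3)) (h4 : Sum.inr 0 ∈ W → C (Sum.inr 0))
    (h5 : Sum.inl 3 ∈ W → C (Sum.inl 3)) (h6 : Sum.inl 0 ∈ W → C (Sum.inl 0))
    (h7 : Sum.inl 2 ∈ W → C (Sum.inl 2)) : ∀ t ∈ W, C t := by
  rintro (t | t) ht
  · fin_cases t
    · exact h6 ht
    · exact absurd rfl (hW ht)
    · exact h7 ht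
    · exact h5 ht
  · fin_cases t
    · exact h4 ht
    · exact h2 ht
    · exact h1 ht
    · exact h3 ht

theorem killed4 (W : Set (Fin 4 ⊕ Fin 4)) (hW : W ⊆ S (1 : Fin 4)) :
    (Ideal.span ((fun s => kl4 K (gen K 4 s)) '' W)).IsPrime ∧
    ∀ s ∈ S (1 : Fin 4), s ∉ W →
      kl4 K (gen K 4 s) ∉ Ideal.span ((fun s => kl4 K (gen K 4 s)) '' W) := by
  constructor
  · have h := chain4 (K := K) (Sum.inr 2 ∈ W) (Sum.inr 1 ∈ W) (Sum.inr 3 ∈ W) (Sum.inr 0 ∈ W)
      (Sum.inl 3 ∈ W) (Sum.inl 0 ∈ W) (Sum.inl 2 ∈ W)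
    convert h using 2
    ext x
    constructor
    · rintro ⟨t, ht, rfl⟩
      revert t
      refine cases4 W hW _ ?_ ?_ ?_ ?_ ?_ ?_ ?_

      · exact fun h => Or.inl (Or.inl (Or.inl (Or.inl (Or.inl (Or.inl (Or.inr ⟨kl4_w1, h⟩))))))
      · exact fun h => Or.inl (Or.inl (Or.inl (Or.inl (Or.inl (Or.inr ⟨kl4_w2, h⟩)))))
      · exact fun h => Or.inl (Or.inl (Or.inl (Or.inl (Or.inr ⟨kl4_w3, h⟩))))
      · exact fun h => Or.inl (Or.inl (Or.inl (Or.inr ⟨kl4_w4, h⟩)))
      · exact fun h => Or.inl (Or.inl (Or.inr ⟨kl4_w5, h⟩))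
      · exact fun h => Or.inl (Or.inr ⟨kl4_w6, h⟩)
      · exact fun h => Or.inr ⟨kl4_w7, h⟩
    · rintro (((((((h | ⟨rfl, h⟩) | ⟨rfl, h⟩) | ⟨rfl, h⟩) | ⟨rfl, h⟩) | ⟨rfl, h⟩) | ⟨rfl, h⟩) | ⟨rfl, h⟩)
      · exact absurd h (Set.notMem_empty _)
      · exact ⟨_, h, kl4_w1⟩
      · exact ⟨_, h, kl4_w2⟩
      · exact ⟨_, h, kl4_w3⟩
      · exact ⟨_, h, kl4_w4⟩
      · exact ⟨_, h, kl4_w5⟩
      · exact ⟨_, h, kl4_w6⟩
      · exact ⟨_, h, kl4_w7⟩
  · have key : ∀ (p : Vars 4 → K) (s : Fin 4 ⊕ Fin 4), s ∉ W → eval p (kl4 K (gen K 4 s)) ≠ 0 →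
        (Sum.inr 2 ∈ W → eval p (w1 K) = 0) → (Sum.inr 1 ∈ W → eval p (w2 K) = 0) →
        (Sum.inr 3 ∈ W → eval p (w3 K) = 0) → (Sum.inr 0 ∈ W → eval p (w4 K) = 0) →
        (Sum.inl 3 ∈ W → eval p (w5 K) = 0) → (Sum.inl 0 ∈ W → eval p (w6 K) = 0) →
        (Sum.inl 2 ∈ W → eval p (w7 K) = 0) →
        kl4 K (gen K 4 s) ∉ Ideal.span ((fun s => kl4 K (gen K 4 s)) '' W) := by
      intro p s _ hs h1 h2 h3 h4 h5 h6 h7
      refine notMem_of_eval p ?_ hs
      rintro _ ⟨t, ht, rfl⟩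
      revert t
      refine cases4 W hW _ ?_ ?_ ?_ ?_ ?_ ?_ ?_
      · intro h; simp only; rw [kl4_w1, map_neg, h1 h, neg_zero]
      · intro h; simp only; rw [kl4_w2, map_neg, h2 h, neg_zero]
      · intro h; simp only; rw [kl4_w3]; exact h3 h
      · intro h; simp only; rw [kl4_w4]; exact h4 h
      · intro h; simp only; rw [kl4_w5, map_neg, h5 h, neg_zero]
      · intro h; simp only; rw [kl4_w6, map_neg, h6 h, neg_zero]
      · intro h; simp only; rw [kl4_w7]; exact h7 h
    rintro (s | s) hs hsW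
    · fin_cases s
      · refine key (pt K (Sum.inl (0, 1)) (Sum.inr (1, 0))) (Sum.inl 0) hsW ?_ (fun _ => by simp [w1, pt])
          (fun _ => by simp [w2, pt])
          (fun _ => by simp [w3, pt])
          (fun _ => by simp [w4, pt])
          (fun _ => by simp [w5, pt])
          (fun h => absurd h hsW)
          (fun _ => by simp [w7, pt])
        rw [kl4_w6]
        simp [w6, pt]
      · exact absurd rfl hs
      · refine key (pt K (Sum.inl (2, 1)) (Sum.inr (1, 2))) (Sum.inl 2) hsW ?_ (fun _ => by simp [w1, pt])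
          (fun _ => by simp [w2, pt])
          (fun _ => by simp [w3, pt])
          (fun _ => by simp [w4, pt])
          (fun _ => by simp [w5, pt])
          (fun _ => by simp [w6, pt])
          (fun h => absurd h hsW)
        rw [kl4_w7]
        simp [w7, pt]
      · refine key (pt K (Sum.inl (1, 3)) (Sum.inr (3, 1))) (Sum.inl 3) hsW ?_ (fun _ => by simp [w1, pt])
          (fun _ => by simp [w2, pt])
          (fun _ => by simp [w3, pt])
          (fun _ => by simp [w4, pt])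
          (fun h => absurd h hsW)
          (fun _ => by simp [w6, pt])
          (fun _ => by simp [w7, pt])
        rw [kl4_w5]
        simp [w5, pt]
    · fin_cases s
      · refine key (pt K (Sum.inl (0, 0)) (Sum.inr (0, 3))) (Sum.inr 0) hsW ?_ (fun _ => by simp [w1, pt])
          (fun _ => by simp [w2, pt])
          (fun _ => by simp [w3, pt])
          (fun h => absurd h hsW)
          (fun _ => by simp [w5, pt])
          (fun _ => by simp [w6, pt])
          (fun _ => by simp [w7, pt])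
        rw [kl4_w4]
        simp [w4, pt]
      · refine key (pt K (Sum.inl (3, 2)) (Sum.inr (1, 3))) (Sum.inr 1) hsW ?_ (fun _ => by simp [w1, pt])
          (fun h => absurd h hsW)
          (fun _ => by simp [w3, pt])
          (fun _ => by simp [w4, pt])
          (fun _ => by simp [w5, pt])
          (fun _ => by simp [w6, pt])
          (fun _ => by simp [w7, pt])
        rw [kl4_w2]
        simp [w2, pt]
      · refine key (pt K (Sum.inr (2, 0)) (Sum.inl (0, 1))) (Sum.inr 2) hsW ?_ (fun h => absurd h hsW)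
          (fun _ => by simp [w2, pt])
          (fun _ => by simp [w3, pt])
          (fun _ => by simp [w4, pt])
          (fun _ => by simp [w5, pt])
          (fun _ => by simp [w6, pt])
          (fun _ => by simp [w7, pt])
        rw [kl4_w1]
        simp [w1, pt]
      · refine key (pt K (Sum.inl (3, 0)) (Sum.inr (0, 0))) (Sum.inr 3) hsW ?_ (fun _ => by simp [w1, pt])
          (fun _ => by simp [w2, pt])
          (fun h => absurd h hsW)
          (fun _ => by simp [w4, pt])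
          (fun _ => by simp [w5, pt])
          (fun _ => by simp [w6, pt])
          (fun _ => by simp [w7, pt])
        rw [kl4_w3]
        simp [w3, pt]

theorem Q_four : Q K (1 : Fin 4) := by
  intro W hW
  constructor
  · refine prime_of_kill (fun z => z ∈ bd4) (gen K 4) (fun s => ⟨2, two_pos, gen_isHomogeneous s⟩) W
      (Set.toFinite W) ?_ ?_
    · intro W' hW'
      exact (killed4 W' (hW'.trans hW)).1
    · intro W' hW' i hi hiW'
      exact (killed4 W' (hW'.trans hW)).2 i (hW hi) hiW'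
  · intro s hs hsW hmem
    have h1 : Ideal.span (gen K 4 '' W) ≤
        (Ideal.span ((fun s => kl4 K (gen K 4 s)) '' W)).comap (kl4 K) := by
      rw [Ideal.span_le]
      rintro _ ⟨t, ht, rfl⟩
      exact Ideal.subset_span ⟨t, ht, rfl⟩
    exact (killed4 W hW).2 s hs hsW (h1 hmem)

theorem Q_one : Q K (0 : Fin 1) := by
  have hS : ∀ t : Fin 1 ⊕ Fin 1, t ∉ S (0 : Fin 1) := by
    rintro (t | t) ht
    · exact ht (Subsingleton.elim _ _)
    · exact ht (Subsingleton.elim _ _)
  intro W hW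
  have hWe : W = ∅ := Set.eq_empty_of_forall_notMem fun t ht => hS t (hW ht)
  subst hWe
  refine ⟨?_, fun s hs => absurd hs (hS s)⟩
  rw [Set.image_empty, Ideal.span_empty]
  exact Ideal.isPrime_bot

theorem exists_Q : ∀ n : ℕ, 3 ≤ n → ∃ r : Fin n, Q K r := by
  intro n
  induction n using Nat.strong_induction_on with
  | _ n ih =>
    intro hn
    rcases Nat.lt_or_ge n 5 with h | h
    · interval_cases n
      · exact ⟨_, step_Q _ (Q_one (K := K))⟩
      · exact ⟨_, Q_four⟩
    · obtain ⟨m, rfl⟩ : ∃ m, n = m + 2 := ⟨n - 2, by omega⟩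
      obtain ⟨r, hr⟩ := ih m (by omega) (by omega)
      exact ⟨_, step_Q r hr⟩

theorem both_prime (n : ℕ) (hn : 3 ≤ n) : (bothIdeal K n).IsPrime := by
  classical
  obtain ⟨r, hr⟩ := exists_Q (K := K) n hn
  have h1 := (hr (S r) le_rfl).1
  have h2 : bothIdeal K n = Ideal.span (gen K n '' S r) := by
    apply le_antisymm
    · have hD : ∀ i, i ≠ r → comm K n i i ∈ Ideal.span (gen K n '' S r) := fun i hi =>
        Ideal.subset_span ⟨Sum.inl i, hi, rfl⟩
      have hr' : comm K n r r ∈ Ideal.span (gen K n '' S r) := by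
        have htr : ∑ i, comm K n i i = 0 := by
          have h3 : (comm K n).trace = 0 := by
            unfold comm
            rw [Matrix.trace_sub, Matrix.trace_mul_comm, sub_self]
          exact h3
        rw [← Finset.add_sum_erase _ _ (Finset.mem_univ r)] at htr
        rw [eq_neg_of_add_eq_zero_left htr]
        refine neg_mem (Ideal.sum_mem _ fun i hi => hD i (Finset.ne_of_mem_erase hi))
      have hD' : ∀ i, comm K n i i ∈ Ideal.span (gen K n '' S r) := by
        intro i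
        by_cases hi : i = r
        · rw [hi]; exact hr'
        · exact hD i hi
      unfold bothIdeal
      rw [Ideal.span_le]
      rintro _ (⟨i, rfl⟩ | ⟨i, rfl⟩)
      · exact hD' i
      · by_cases hi : Fin.rev i = i
        · show comm K n i (Fin.rev i) ∈ _
          rw [hi]; exact hD' i
        · exact Ideal.subset_span ⟨Sum.inr i, hi, rfl⟩
    · rw [Ideal.span_le]
      rintro _ ⟨t, -, rfl⟩
      rcases t with i | i
      · exact Ideal.subset_span (Or.inl ⟨i, rfl⟩)
      · exact Ideal.subset_span (Or.inr ⟨i, rfl⟩)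
  rw [h2]
  exact h1

end four'

theorem anti_prime (n : ℕ) (hn : 3 ≤ n) : (antiIdeal K n).IsPrime := by
  rcases Nat.lt_or_ge n 4 with h | h
  · obtain rfl : n = 3 := by omega
    exact prime_three
  · have : NeZero n := ⟨by omega⟩
    exact prime_four h

/-- For every field `K` and every `n ≥ 3` the ideal `J` generated by the anti-diagonal entries and
the ideal `I + J` generated by the diagonal and the anti-diagonal entries of the commutator matrix
`XY - YX` of two generic `n × n` matrices are prime. -/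
theorem result (K : Type*) [Field K] (n : ℕ) (hn : 3 ≤ n) :
    (bothIdeal K n).IsPrime ∧ (antiIdeal K n).IsPrime :=
  ⟨both_prime n hn, anti_prime n hn⟩

end Pool.Agent.Results.MP_bf1dc4_ag.BothIdeals
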